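import Mathlib

/-!
# MP_7a1b54_al (S02015), part B: weak maximal condition for Pruefer-like factors
-/

set_option autoImplicit false

namespace Pool.Agent.Helper24.WeakMax

open scoped commutatorElement

section Pruefer

variable {M : Type*} [AddCommGroup M]

/-- The subgroup generated by `v 1, ..., v c`. -/
def Mc (v : ℕ → M) : ℕ → AddSubgroup M
  | 0 => ⊥
  | c + 1 => Mc v c ⊔ AddSubgroup.zmultiples (v (c + 1))

theorem Mc_mono (v : ℕ → M) : Monotone (Mc v) :=
  monotone_nat_of_le_succ fun _ => le_sup_left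

theorem mem_Mc_succ (v : ℕ → M) (h2 : ∀ c, v c + v c = 0) {c : ℕ} {a : M}
    (ha : a ∈ Mc v (c + 1)) : ∃ b ∈ Mc v c, a = b ∨ a = b + v (c + 1) := by
  rw [Mc, AddSubgroup.mem_sup] at ha
  obtain ⟨b, hb, w, hw, rfl⟩ := ha
  obtain ⟨n, rfl⟩ := AddSubgroup.mem_zmultiples_iff.mp hw
  refine ⟨b, hb, ?_⟩
  rcases Int.even_or_odd' n with ⟨k, rfl | rfl⟩
  · left
    have : (2 * k) • v (c + 1) = k • (v (c + 1) + v (c + 1)) := by
      rw [mul_comm, mul_smul, two_smul]
    rw [this, h2, smul_zero, add_zero]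
  · right
    have : (2 * k + 1) • v (c + 1) = k • (v (c + 1) + v (c + 1)) + v (c + 1) := by
      rw [add_smul, one_smul, mul_comm, mul_smul, two_smul]
    rw [this, h2, smul_zero, zero_add]

theorem Mc_finite (v : ℕ → M) (h2 : ∀ c, v c + v c = 0) (c : ℕ) :
    (Mc v c : Set M).Finite := by
  induction c with
  | zero => simp [Mc]
  | succ c ih =>
    refine (ih.union (ih.image (fun b => b + v (c + 1)))).subset ?_
    intro a ha
    obtain ⟨b, hb, h | h⟩ := mem_Mc_succ v h2 ha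
    · left; rw [h]; exact hb
    · right; exact ⟨b, hb, h.symm⟩

theorem v_mem_Mc (v : ℕ → M) (h0 : v 0 = 0) {d c : ℕ} (h : d ≤ c) : v d ∈ Mc v c := by
  cases d with
  | zero => rw [h0]; exact zero_mem _
  | succ d =>
    exact Mc_mono v h (AddSubgroup.mem_sup_right (AddSubgroup.mem_zmultiples _))

theorem t_mem_Mc (t : M →+ M) (v : ℕ → M) (h0 : v 0 = 0) (ht : ∀ c, t (v (c + 1)) = v c)
    (c : ℕ) : ∀ a ∈ Mc v c, t a ∈ Mc v (c - 1) := by
  induction c with
  | zero =>
    intro a ha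
    have : a = 0 := by simpa [Mc] using ha
    rw [this, map_zero]; exact zero_mem _
  | succ c ih =>
    intro a ha
    rw [Mc, AddSubgroup.mem_sup] at ha
    obtain ⟨b, hb, w, hw, rfl⟩ := ha
    obtain ⟨n, rfl⟩ := AddSubgroup.mem_zmultiples_iff.mp hw
    rw [map_add, map_zsmul, ht]
    exact add_mem (Mc_mono v (by omega) (ih b hb)) (zsmul_mem (v_mem_Mc v h0 (by simp)) n)

theorem tpow_mem_Mc (t : M →+ M) (v : ℕ → M) (h0 : v 0 = 0) (ht : ∀ c, t (v (c + 1)) = v c)
    (k c : ℕ) (a : M) (ha : a ∈ Mc v c) : (t^[k]) a ∈ Mc v (c - k) := by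
  induction k with
  | zero => simpa using ha
  | succ k ih =>
    rw [Function.iterate_succ_apply']
    have := t_mem_Mc t v h0 ht _ _ ih
    rwa [Nat.sub_sub] at this

theorem tpow_v (t : M →+ M) (v : ℕ → M) (ht : ∀ c, t (v (c + 1)) = v c)
    (k c : ℕ) : (t^[k]) (v (c + k)) = v c := by
  induction k with
  | zero => simp
  | succ k ih =>
    rw [Function.iterate_succ_apply]
    rw [← add_assoc, ht, ih]

theorem iter_add (t : M →+ M) (k : ℕ) (a b : M) : (t^[k]) (a + b) = (t^[k]) a + (t^[k]) b :=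
  iterate_map_add t k a b

theorem iter_mem (t : M →+ M) (N : AddSubgroup M) (hN : ∀ a ∈ N, t a ∈ N) (k : ℕ) (a : M)
    (ha : a ∈ N) : (t^[k]) a ∈ N := by
  induction k with
  | zero => simpa using ha
  | succ k ih => rw [Function.iterate_succ_apply']; exact hN _ ih

theorem Mc_le_of_not_le (t : M →+ M) (v : ℕ → M) (h0 : v 0 = 0)
    (h2 : ∀ c, v c + v c = 0) (ht : ∀ c, t (v (c + 1)) = v c)
    (hgen : ∀ a : M, ∃ d, a ∈ Mc v d)
    (N : AddSubgroup M) (hN : ∀ a ∈ N, t a ∈ N) (c : ℕ) (hc : ¬ N ≤ Mc v c) :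
    Mc v (c + 1) ≤ N := by
  classical
  induction c with
  | zero =>
    obtain ⟨a, haN, ha⟩ := SetLike.not_le_iff_exists.mp hc
    obtain ⟨d, hd, hmin⟩ : ∃ d, a ∈ Mc v d ∧ ∀ e, e < d → a ∉ Mc v e :=
      ⟨Nat.find (hgen a), Nat.find_spec (hgen a), fun e he => Nat.find_min (hgen a) he⟩
    have hd0 : d ≠ 0 := by rintro rfl; exact ha hd
    obtain ⟨e, rfl⟩ := Nat.exists_eq_succ_of_ne_zero hd0
    obtain ⟨b, hb, h | h⟩ := mem_Mc_succ v h2 hd
    · exact absurd (h ▸ hb) (hmin e (Nat.lt_succ_self e))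
    · have h1 := iter_mem t N hN e a haN
      rw [h, iter_add] at h1
      have h3 : (t^[e]) b = 0 := by
        have := tpow_mem_Mc t v h0 ht e e b hb
        rw [Nat.sub_self] at this
        simpa [Mc] using this
      have h4 : (t^[e]) (v (e + 1)) = v 1 := by
        rw [add_comm]; exact tpow_v t v ht e 1
      rw [h3, h4, zero_add] at h1
      simp only [Mc, bot_sup_eq]
      rw [AddSubgroup.zmultiples_le]
      exact h1
  | succ c ih =>
    have hc' : ¬ N ≤ Mc v c := fun h => hc (h.trans (Mc_mono v (Nat.le_succ c)))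
    have hle := ih hc'
    obtain ⟨a, haN, ha⟩ := SetLike.not_le_iff_exists.mp hc
    obtain ⟨d, hd, hmin⟩ : ∃ d, a ∈ Mc v d ∧ ∀ e, e < d → a ∉ Mc v e :=
      ⟨Nat.find (hgen a), Nat.find_spec (hgen a), fun e he => Nat.find_min (hgen a) he⟩
    have hdc : c + 1 < d := by
      by_contra hcon
      exact ha (Mc_mono v (not_lt.mp hcon) hd)
    obtain ⟨k, rfl⟩ : ∃ k, d = c + 2 + k := ⟨d - (c + 2), by omega⟩
    obtain ⟨b, hb, h | h⟩ := mem_Mc_succ (c := c + 1 + k) v h2
      (by convert hd using 2; omega)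
    · exact absurd (h ▸ hb) (hmin _ (by omega))
    · have h1 := iter_mem t N hN k a haN
      rw [h, iter_add] at h1
      have h3 : (t^[k]) b ∈ Mc v (c + 1) := by
        have := tpow_mem_Mc t v h0 ht k _ b hb
        rwa [Nat.add_sub_cancel] at this
      have h4 : (t^[k]) (v (c + 1 + k + 1)) = v (c + 2) := by
        have := tpow_v t v ht k (c + 2)
        convert this using 3; omega
      rw [h4] at h1
      have h5 : v (c + 2) ∈ N := by
        have := sub_mem h1 (hle h3)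
        simpa using this
      rw [show c + 1 + 1 = (c + 1) + 1 from rfl, Mc]
      exact sup_le hle (AddSubgroup.zmultiples_le.mpr h5)

/-- B1. -/
theorem pruefer {M : Type*} [AddCommGroup M] (t : M →+ M) (v : ℕ → M) (h0 : v 0 = 0)
    (h2 : ∀ c, v c + v c = 0) (ht : ∀ c, t (v (c + 1)) = v c)
    (hgen : AddSubgroup.closure (Set.range v) = ⊤)
    (N : AddSubgroup M) (hN : ∀ a ∈ N, t a ∈ N) : N = ⊤ ∨ (N : Set M).Finite := by
  have hgen' : ∀ a : M, ∃ d, a ∈ Mc v d := by
    intro a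
    have ha : a ∈ AddSubgroup.closure (Set.range v) := hgen ▸ AddSubgroup.mem_top a
    induction ha using AddSubgroup.closure_induction with
    | mem x hx =>
      obtain ⟨c, rfl⟩ := hx
      exact ⟨c, v_mem_Mc v h0 le_rfl⟩
    | zero => exact ⟨0, zero_mem _⟩
    | add x y _ _ hx hy =>
      obtain ⟨d, hd⟩ := hx
      obtain ⟨e, he⟩ := hy
      exact ⟨max d e, add_mem (Mc_mono v (le_max_left d e) hd)
        (Mc_mono v (le_max_right d e) he)⟩
    | neg x _ hx =>
      obtain ⟨d, hd⟩ := hx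
      exact ⟨d, neg_mem hd⟩
  by_cases hall : ∃ c, N ≤ Mc v c
  · obtain ⟨c, hc⟩ := hall
    right
    exact (Mc_finite v h2 c).subset hc
  · left
    rw [eq_top_iff]
    intro a _
    obtain ⟨d, hd⟩ := hgen' a
    push Not at hall
    exact Mc_le_of_not_le t v h0 h2 ht hgen' N hN d (hall d) (Mc_mono v (Nat.le_succ d) hd)

end Pruefer

section Module

/-- Finite relative index is inherited by extensions. -/
theorem relIndex_ext {M : Type*} [AddCommGroup M] (P H K : AddSubgroup M) (hHK : H ≤ K)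
    (h1 : H.relIndex (K ⊓ P) ≠ 0)
    (h2 : (H.map (QuotientAddGroup.mk' P)).relIndex (K.map (QuotientAddGroup.mk' P)) ≠ 0) :
    H.relIndex K ≠ 0 := by
  have h3 : (H ⊔ P).relIndex K ≠ 0 := by
    rw [← AddSubgroup.relIndex_comap] at h2
    have : (H.map (QuotientAddGroup.mk' P)).comap (QuotientAddGroup.mk' P) = H ⊔ P := by
      rw [AddSubgroup.comap_map_eq, QuotientAddGroup.ker_mk']
    rwa [this] at h2
  have hmod : (H ⊔ P) ⊓ K = H ⊔ (K ⊓ P) := by
    rw [sup_inf_assoc_of_le P hHK, inf_comm]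
  have h4 : H.relIndex (H ⊔ (K ⊓ P)) ≠ 0 := by
    rw [AddSubgroup.relIndex_sup_left]
    exact h1
  have h5 : (H ⊔ (K ⊓ P)).relIndex K ≠ 0 := by
    rw [← hmod, AddSubgroup.inf_relIndex_right]
    exact h3
  have h6 := AddSubgroup.relIndex_mul_relIndex H (H ⊔ (K ⊓ P)) K le_sup_left
    (sup_le hHK inf_le_left)
  rw [← h6]
  exact mul_ne_zero h4 h5

theorem closure_invariant {M : Type*} [AddCommGroup M] (t : M →+ M) (s : Set M)
    (hs : ∀ a ∈ s, t a ∈ AddSubgroup.closure s) :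
    ∀ a ∈ AddSubgroup.closure s, t a ∈ AddSubgroup.closure s := by
  intro a ha
  induction ha using AddSubgroup.closure_induction with
  | mem x hx => exact hs x hx
  | zero => rw [map_zero]; exact zero_mem _
  | add x y _ _ hx hy => rw [map_add]; exact add_mem hx hy
  | neg x _ hx => rw [map_neg]; exact neg_mem hx

theorem wm_module (k : ℕ) : ∀ {M : Type*} [AddCommGroup M] (t : M →+ M) (v : Fin k → ℕ → M)
    (_ : ∀ j, v j 0 = 0) (_ : ∀ j c, v j c + v j c = 0) (_ : ∀ j c, t (v j (c + 1)) = v j c)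
    (_ : AddSubgroup.closure {a | ∃ j c, a = v j c} = ⊤)
    (N : ℕ → AddSubgroup M) (_ : ∀ i, ∀ a ∈ N i, t a ∈ N i) (_ : Monotone N),
    ∃ n₀ : ℕ, ∀ i, n₀ ≤ i → (N i).relIndex (N (i + 1)) ≠ 0 := by
  induction k with
  | zero =>
    intro M _ t v _ _ _ hgen N _ _
    refine ⟨0, fun i _ => ?_⟩
    have : (⊥ : AddSubgroup M) = ⊤ := by
      rw [← hgen]
      symm
      rw [AddSubgroup.closure_eq_bot_iff]
      rintro a ⟨j, _⟩
      exact j.elim0
    have h1 : N (i + 1) = ⊥ := by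
      rw [eq_bot_iff, this]; exact le_top
    rw [h1, AddSubgroup.relIndex_bot_right]
    exact one_ne_zero
  | succ k ih =>
    intro M _ t v h0 h2 ht hgen N hN hmono
    set P : AddSubgroup M := AddSubgroup.closure (Set.range (v 0)) with hP
    have hPt : ∀ a ∈ P, t a ∈ P := by
      refine closure_invariant t _ ?_
      rintro _ ⟨c, rfl⟩
      cases c with
      | zero => rw [h0, map_zero]; exact zero_mem _
      | succ c => rw [ht]; exact AddSubgroup.subset_closure ⟨c, rfl⟩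
    -- first factor
    have hfirst : ∃ n₀ : ℕ, ∀ i, n₀ ≤ i → (N i).relIndex (N (i + 1) ⊓ P) ≠ 0 := by
      let tP : P →+ P := (t.comp P.subtype).codRestrict P (fun a => hPt a a.2)
      let vP : ℕ → P := fun c => ⟨v 0 c, AddSubgroup.subset_closure ⟨c, rfl⟩⟩
      have hgP : AddSubgroup.closure (Set.range vP) = ⊤ := by
        have h := AddSubgroup.closure_closure_coe_preimage (k := Set.range (v 0))
        rw [← h]
        congr 1
        ext ⟨x, hx⟩
        simp only [Set.mem_range, Set.mem_preimage, vP, Subtype.mk.injEq]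
      have hdich : ∀ i, (N i).addSubgroupOf P = ⊤ ∨ (((N i).addSubgroupOf P : AddSubgroup P) :
          Set P).Finite := by
        intro i
        refine pruefer tP vP ?_ ?_ ?_ hgP _ ?_
        · exact Subtype.ext (h0 0)
        · intro c; exact Subtype.ext (h2 0 c)
        · intro c; exact Subtype.ext (ht 0 c)
        · intro a ha
          rw [AddSubgroup.mem_addSubgroupOf] at ha ⊢
          exact hN i _ ha
      have hrel : ∀ i, ((N i).addSubgroupOf P).relIndex ((N (i + 1)).addSubgroupOf P) =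
          (N i).relIndex (N (i + 1) ⊓ P) := by
        intro i
        unfold AddSubgroup.addSubgroupOf
        rw [AddSubgroup.relIndex_comap]
        congr 1
        exact AddSubgroup.addSubgroupOf_map_subtype _ _
      by_cases htop : ∃ n, (N n).addSubgroupOf P = ⊤
      · obtain ⟨n, hn⟩ := htop
        refine ⟨n, fun i hi => ?_⟩
        rw [← hrel]
        have : (N i).addSubgroupOf P = ⊤ := by
          rw [eq_top_iff, ← hn]
          exact AddSubgroup.comap_mono (hmono hi)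
        rw [this, AddSubgroup.relIndex_top_left]
        exact one_ne_zero
      · push Not at htop
        refine ⟨0, fun i _ => ?_⟩
        rw [← hrel]
        have hf := (hdich (i + 1)).resolve_left (htop (i + 1))
        have : Finite ((N (i + 1)).addSubgroupOf P : AddSubgroup P) := hf.to_subtype
        rw [AddSubgroup.relIndex]
        exact AddSubgroup.index_ne_zero_of_finite
    -- the other factors
    have hPle : P ≤ P.comap t := fun a ha => hPt a ha
    have hsecond : ∃ n₀ : ℕ, ∀ i, n₀ ≤ i → ((N i).map (QuotientAddGroup.mk' P)).relIndex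
        ((N (i + 1)).map (QuotientAddGroup.mk' P)) ≠ 0 := by
      refine ih (M := M ⧸ P) (QuotientAddGroup.map P P t hPle)
        (fun j c => QuotientAddGroup.mk' P (v j.succ c)) ?_ ?_ ?_ ?_ _ ?_ ?_
      · intro j; rw [h0, map_zero]
      · intro j c; rw [← map_add, h2, map_zero]
      · intro j c
        show QuotientAddGroup.map P P t hPle (v j.succ (c + 1) : M ⧸ P) = _
        rw [QuotientAddGroup.map_mk, ht]
        rfl
      · rw [eq_top_iff]
        rintro x -
        obtain ⟨a, rfl⟩ := QuotientAddGroup.mk'_surjective P x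
        have ha : a ∈ AddSubgroup.closure {a | ∃ j c, a = v j c} := hgen ▸ AddSubgroup.mem_top a
        induction ha using AddSubgroup.closure_induction with
        | mem x hx =>
          obtain ⟨j, c, rfl⟩ := hx
          refine Fin.cases ?_ (fun j => ?_) j
          · have : QuotientAddGroup.mk' P (v 0 c) = 0 := by
              rw [QuotientAddGroup.mk'_apply, QuotientAddGroup.eq_zero_iff]
              exact AddSubgroup.subset_closure ⟨c, rfl⟩
            rw [this]; exact zero_mem _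
          · exact AddSubgroup.subset_closure ⟨j, c, rfl⟩
        | zero => rw [map_zero]; exact zero_mem _
        | add x y _ _ hx hy => rw [map_add]; exact add_mem hx hy
        | neg x _ hx => rw [map_neg]; exact neg_mem hx
      · rintro i _ ⟨a, ha, rfl⟩
        refine ⟨t a, hN i a ha, ?_⟩
        show _ = QuotientAddGroup.map P P t hPle (a : M ⧸ P)
        rw [QuotientAddGroup.map_mk]
        rfl
      · intro i j hij
        exact AddSubgroup.map_mono (hmono hij)
    obtain ⟨n1, hn1⟩ := hfirst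
    obtain ⟨n2, hn2⟩ := hsecond
    refine ⟨max n1 n2, fun i hi => ?_⟩
    exact relIndex_ext P _ _ (hmono (Nat.le_succ i)) (hn1 i (le_trans (le_max_left _ _) hi))
      (hn2 i (le_trans (le_max_right _ _) hi))

theorem wm_families {A : Type*} [AddCommGroup A] (T : A →+ A) {ι : Type*} [Finite ι] (m₀ : ℕ)
    (ζ : ι → ℕ → ℤ → A) (hsq : ∀ α m r, ζ α m r + ζ α m r = 0)
    (hsplit : ∀ α m r, ζ α (m + 1) r + ζ α (m + 1) (r + 2 ^ (m + m₀ + 1)) = ζ α m r)
    (hper : ∀ α m r, ζ α m (r + 2 ^ (m + m₀ + 1)) = ζ α m r)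
    (hshift : ∀ α m r, T (ζ α m r) = ζ α m (r + 1))
    (hgen : AddSubgroup.closure {a | ∃ α m r, a = ζ α m r} = ⊤)
    (N : ℕ → AddSubgroup A) (hN : ∀ i, ∀ a ∈ N i, T a ∈ N i) (hmono : Monotone N) :
    ∃ n₀ : ℕ, ∀ i, n₀ ≤ i → (N i).relIndex (N (i + 1)) ≠ 0 := by
  have hA : ∀ a : A, a + a = 0 := by
    intro a
    have ha : a ∈ AddSubgroup.closure {a | ∃ α m r, a = ζ α m r} := hgen ▸ AddSubgroup.mem_top a
    induction ha using AddSubgroup.closure_induction with
    | mem x hx =>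
      obtain ⟨α, m, r, rfl⟩ := hx
      exact hsq α m r
    | zero => exact add_zero 0
    | add x y _ _ hx hy => rw [add_add_add_comm, hx, hy, add_zero]
    | neg x _ hx => rw [← neg_add, hx, neg_zero]
  let t : A →+ A := T + AddMonoidHom.id A
  have ht : ∀ a, t a = T a + a := fun a => rfl
  have htpow : ∀ k a, (t^[2 ^ k]) a = (T^[2 ^ k]) a + a := by
    intro k
    induction k with
    | zero => intro a; simp [ht]
    | succ k ih =>
      intro a
      rw [pow_succ, mul_two, Function.iterate_add_apply, ih, ih, iterate_map_add,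
        Function.iterate_add_apply]
      have h := hA ((T^[2 ^ k]) a)
      calc (T^[2 ^ k]) ((T^[2 ^ k]) a) + (T^[2 ^ k]) a + ((T^[2 ^ k]) a + a)
          = (T^[2 ^ k]) ((T^[2 ^ k]) a) + ((T^[2 ^ k]) a + (T^[2 ^ k]) a) + a := by abel
        _ = _ := by rw [h, add_zero]
  have hTn : ∀ (n : ℕ) α m r, (T^[n]) (ζ α m r) = ζ α m (r + n) := by
    intro n
    induction n with
    | zero => intro α m r; simp
    | succ n ih =>
      intro α m r
      rw [Function.iterate_succ_apply, hshift, ih]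
      congr 1
      push_cast
      ring
  have hE : ∀ α j, (t^[2 ^ (j + m₀ + 1)]) (ζ α (j + 1) 0) = ζ α j 0 := by
    intro α j
    rw [htpow, hTn, add_comm, ← hsplit α j 0]
    push_cast
    rfl
  have hle : ∀ c, c ≤ 2 ^ (c + m₀ + 1) := by
    intro c
    have h1 : c < 2 ^ c := Nat.lt_two_pow_self
    have h2 : 2 ^ c ≤ 2 ^ (c + m₀ + 1) := Nat.pow_le_pow_right (by norm_num) (by omega)
    omega
  let v : ι → ℕ → A := fun α c => (t^[2 ^ (c + m₀ + 1) - c]) (ζ α c 0)
  have hv : ∀ α c, v α c = (t^[2 ^ (c + m₀ + 1) - c]) (ζ α c 0) := fun _ _ => rfl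
  have hv0 : ∀ α, v α 0 = 0 := by
    intro α
    rw [hv, Nat.sub_zero, htpow, hTn]
    have := hper α 0 0
    push_cast at this ⊢
    rw [this]
    exact hsq α 0 0
  have hvt : ∀ α c, t (v α (c + 1)) = v α c := by
    intro α c
    rw [hv, hv, ← Function.iterate_succ_apply' t]
    have h1 := hle c
    have h2 := hle (c + 1)
    have h3 : 2 ^ (c + 1 + m₀ + 1) = 2 ^ (c + m₀ + 1) + 2 ^ (c + m₀ + 1) := by ring
    have h4 : (2 ^ (c + 1 + m₀ + 1) - (c + 1)).succ =
        (2 ^ (c + m₀ + 1) - c) + 2 ^ (c + m₀ + 1) := by omega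
    rw [h4, Function.iterate_add_apply, hE]
  have hdown : ∀ α j n, (t^[2 ^ (j + n + m₀ + 1) - 2 ^ (j + m₀ + 1)]) (ζ α (j + n) 0) =
      ζ α j 0 := by
    intro α j n
    induction n with
    | zero => simp
    | succ n ih =>
      have h1 : 2 ^ (j + m₀ + 1) ≤ 2 ^ (j + n + m₀ + 1) :=
        Nat.pow_le_pow_right (by norm_num) (by omega)
      have h3 : 2 ^ (j + (n + 1) + m₀ + 1) = 2 ^ (j + n + m₀ + 1) + 2 ^ (j + n + m₀ + 1) := by
        ring
      have h4 : ∀ a b : ℕ, b ≤ a → a + a - b = (a - b) + a := by intro a b h; omega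
      rw [h3, h4 _ _ h1, Function.iterate_add_apply, ← add_assoc, hE, ih]
  set V : AddSubgroup A := AddSubgroup.closure {a | ∃ α c, a = v α c} with hV
  have hVt : ∀ a ∈ V, t a ∈ V := by
    refine closure_invariant t _ ?_
    rintro _ ⟨α, c, rfl⟩
    cases c with
    | zero => rw [hv0, map_zero]; exact zero_mem _
    | succ c => rw [hvt]; exact AddSubgroup.subset_closure ⟨α, c, rfl⟩
  have hVT : ∀ a ∈ V, T a ∈ V := by
    intro a ha
    have h1 : T a = t a - a := by rw [ht, add_sub_cancel_right]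
    rw [h1]
    exact sub_mem (hVt a ha) ha
  have hbase : ∀ α j, ζ α j 0 ∈ V := by
    intro α j
    have h1 : j ≤ 2 ^ (j + m₀ + 1) := hle j
    have h2 := hdown α j (2 ^ (j + m₀ + 1) - j)
    have h3 : j + (2 ^ (j + m₀ + 1) - j) = 2 ^ (j + m₀ + 1) := by omega
    rw [h3] at h2
    rw [← h2]
    exact AddSubgroup.subset_closure ⟨α, 2 ^ (j + m₀ + 1), rfl⟩
  have hnat : ∀ α j (n : ℕ), ζ α j n ∈ V := by
    intro α j n
    have h1 := iter_mem T V hVT n _ (hbase α j)
    rwa [hTn, zero_add] at h1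
  have hperk : ∀ α m r (k : ℕ), ζ α m (r + k * 2 ^ (m + m₀ + 1)) = ζ α m r := by
    intro α m r k
    induction k with
    | zero => simp
    | succ k ih =>
      rw [← ih, ← hper α m (r + k * 2 ^ (m + m₀ + 1))]
      congr 1
      push_cast
      ring
  have hall : ∀ α j (r : ℤ), ζ α j r ∈ V := by
    intro α j r
    rw [← hperk α j r r.natAbs]
    have h1 : (0 : ℤ) ≤ r + r.natAbs * 2 ^ (j + m₀ + 1) := by
      have h2 : (1 : ℤ) ≤ 2 ^ (j + m₀ + 1) := one_le_pow₀ (by norm_num)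
      have h3 : (0 : ℤ) ≤ r.natAbs := by positivity
      have h4 : -r ≤ r.natAbs := by omega
      nlinarith
    obtain ⟨n, hn⟩ := Int.eq_ofNat_of_zero_le h1
    rw [hn]
    exact hnat α j n
  have hVtop : V = ⊤ := by
    rw [eq_top_iff, ← hgen, AddSubgroup.closure_le]
    rintro _ ⟨α, m, r, rfl⟩
    exact hall α m r
  obtain ⟨k, ⟨e⟩⟩ := Finite.exists_equiv_fin ι
  refine wm_module k t (fun j => v (e.symm j)) (fun j => hv0 _) (fun j c => hA _)
    (fun j c => hvt _ c) ?_ N ?_ hmono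
  · rw [← hVtop, hV]
    congr 1
    ext a
    constructor
    · rintro ⟨j, c, rfl⟩
      exact ⟨e.symm j, c, rfl⟩
    · rintro ⟨α, c, rfl⟩
      exact ⟨e α, c, by rw [Equiv.symm_apply_apply]⟩
  · intro i a ha
    rw [ht]
    exact add_mem (hN i a ha) ha

end Module

/-- B2. One factor: `B₁/B₀` abelian of exponent 2, generated by finitely many families `z α m r`
(`m ≥ m₀`), modulo `B₀` periodic, split, shifted by `y`. -/
theorem wm_factor {G : Type*} [Group G] (y : G) (B₀ B₁ : Subgroup G) (h₀ : B₀.Normal)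
    (h₁ : B₁.Normal) (hle : B₀ ≤ B₁) (hab : ⁅B₁, B₁⁆ ≤ B₀)
    {ι : Type*} [Finite ι] (z : ι → ℕ → ℤ → G) (m₀ : ℕ)
    (hz : ∀ α m r, m₀ ≤ m → z α m r ∈ B₁)
    (hgen : B₁ = B₀ ⊔ Subgroup.closure {g | ∃ α m r, m₀ ≤ m ∧ g = z α m r})
    (hsq : ∀ α m r, m₀ ≤ m → z α m r * z α m r ∈ B₀)
    (hsplit : ∀ α m r, m₀ ≤ m →
      (z α m r)⁻¹ * (z α (m + 1) r * z α (m + 1) (r + 2 ^ (m + 1))) ∈ B₀)
    (hper : ∀ α m r, m₀ ≤ m → (z α m r)⁻¹ * z α m (r + 2 ^ (m + 1)) ∈ B₀)
    (hshift : ∀ α m r, m₀ ≤ m → (y * z α m r * y⁻¹)⁻¹ * z α m (r + 1) ∈ B₀)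
    (f : ℕ → Subgroup G) (hf : ∀ i, (f i).Normal) (hmono : Monotone f) (hB : ∀ i, B₀ ≤ f i) :
    ∃ n₀ : ℕ, ∀ i, n₀ ≤ i → (f i ⊓ B₁).relIndex (f (i + 1) ⊓ B₁) ≠ 0 := by
  set C : Subgroup B₁ := B₀.subgroupOf B₁ with hC
  have hCn : C.Normal := h₀.subgroupOf B₁
  have hmem : ∀ a b : B₁, ((a : B₁ ⧸ C) = (b : B₁ ⧸ C)) ↔ (a : G)⁻¹ * b ∈ B₀ := by
    intro a b
    rw [QuotientGroup.eq, hC, Subgroup.mem_subgroupOf]
    rfl
  let _ : CommGroup (B₁ ⧸ C) :=
    { (inferInstance : Group (B₁ ⧸ C)) with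
      mul_comm := by
        intro a b
        obtain ⟨a, rfl⟩ := QuotientGroup.mk_surjective a
        obtain ⟨b, rfl⟩ := QuotientGroup.mk_surjective b
        show ((a * b : B₁) : B₁ ⧸ C) = ((b * a : B₁) : B₁ ⧸ C)
        rw [hmem]
        have h1 : ⁅(b : G)⁻¹, (a : G)⁻¹⁆ ∈ B₀ :=
          hab (Subgroup.commutator_mem_commutator (inv_mem b.2) (inv_mem a.2))
        have h2 : ((a * b : B₁) : G)⁻¹ * ((b * a : B₁) : G) = ⁅(b : G)⁻¹, (a : G)⁻¹⁆ := by
          rw [commutatorElement_def]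
          push_cast
          group
        rw [h2]
        exact h1 }
  let σ : B₁ →* B₁ := (MulAut.conjNormal y : MulAut B₁).toMonoidHom
  have hσ : ∀ b : B₁, ((σ b : B₁) : G) = y * b * y⁻¹ := fun b => MulAut.conjNormal_apply y b
  have hCσ : C ≤ C.comap σ := by
    intro b hb
    rw [Subgroup.mem_comap, hC, Subgroup.mem_subgroupOf, hσ]
    exact h₀.conj_mem _ (Subgroup.mem_subgroupOf.mp hb) y
  let Tm : (B₁ ⧸ C) →* (B₁ ⧸ C) := QuotientGroup.map C C σ hCσ
  have hTm : ∀ b : B₁, Tm (b : B₁ ⧸ C) = ((σ b : B₁) : B₁ ⧸ C) := fun b => rfl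
  let T : Additive (B₁ ⧸ C) →+ Additive (B₁ ⧸ C) := MonoidHom.toAdditive Tm
  let Z : ι → ℕ → ℤ → B₁ := fun α m r => ⟨z α (m + m₀) r, hz α (m + m₀) r (by omega)⟩
  let ζ : ι → ℕ → ℤ → Additive (B₁ ⧸ C) := fun α m r => Additive.ofMul ((Z α m r : B₁) : B₁ ⧸ C)
  have hone : ∀ a : B₁, ((a : B₁ ⧸ C) = 1) ↔ (a : G) ∈ B₀ := by
    intro a
    rw [QuotientGroup.eq_one_iff, hC, Subgroup.mem_subgroupOf]
  have hkey := wm_families T m₀ ζ ?_ ?_ ?_ ?_ ?_
    (fun i => Subgroup.toAddSubgroup (((f i).subgroupOf B₁).map (QuotientGroup.mk' C))) ?_ ?_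
  · obtain ⟨n₀, hn⟩ := hkey
    refine ⟨n₀, fun i hi => ?_⟩
    have h1 := hn i hi
    rw [Subgroup.relIndex_toAddSubgroup, Subgroup.relIndex_map_map] at h1
    have hker : ∀ i, (f i).subgroupOf B₁ ⊔ (QuotientGroup.mk' C).ker = (f i).subgroupOf B₁ := by
      intro i
      rw [QuotientGroup.ker_mk', sup_eq_left, hC]
      exact Subgroup.comap_mono (hB i)
    rw [hker, hker] at h1
    have h2 : ((f i).subgroupOf B₁).relIndex ((f (i + 1)).subgroupOf B₁) =
        (f i).relIndex (f (i + 1) ⊓ B₁) := by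
      unfold Subgroup.subgroupOf
      rw [Subgroup.relIndex_comap]
      congr 1
      exact Subgroup.subgroupOf_map_subtype _ _
    rw [h2] at h1
    have h3 : (f i ⊓ B₁).relIndex (f (i + 1) ⊓ B₁) = (f i).relIndex (f (i + 1) ⊓ B₁) := by
      rw [← Subgroup.inf_relIndex_right (f i), ← Subgroup.inf_relIndex_right (f i ⊓ B₁)]
      congr 1
      ext x
      simp only [Subgroup.mem_inf]
      tauto
    rw [h3]
    exact h1
  · intro α m r
    show ((Z α m r : B₁) : B₁ ⧸ C) * ((Z α m r : B₁) : B₁ ⧸ C) = 1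
    rw [← QuotientGroup.mk_mul, hone]
    exact hsq α (m + m₀) r (by omega)
  · intro α m r
    show ((Z α (m + 1) r : B₁) : B₁ ⧸ C) * ((Z α (m + 1) (r + 2 ^ (m + m₀ + 1)) : B₁) : B₁ ⧸ C) =
      ((Z α m r : B₁) : B₁ ⧸ C)
    rw [← QuotientGroup.mk_mul, eq_comm, hmem]
    have h := hsplit α (m + m₀) r (by omega)
    have e : m + m₀ + 1 = m + 1 + m₀ := by omega
    simp only [e] at h
    simp only [Z, e]
    exact h
  · intro α m r
    show ((Z α m (r + 2 ^ (m + m₀ + 1)) : B₁) : B₁ ⧸ C) = ((Z α m r : B₁) : B₁ ⧸ C)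
    rw [eq_comm, hmem]
    exact hper α (m + m₀) r (by omega)
  · intro α m r
    show Tm ((Z α m r : B₁) : B₁ ⧸ C) = ((Z α m (r + 1) : B₁) : B₁ ⧸ C)
    rw [hTm, hmem, hσ]
    exact hshift α (m + m₀) r (by omega)
  · rw [eq_top_iff]
    rintro x -
    obtain ⟨⟨b, hb⟩, rfl⟩ : ∃ b : B₁, Additive.ofMul (b : B₁ ⧸ C) = x := by
      obtain ⟨b, hb⟩ := QuotientGroup.mk_surjective (Additive.toMul x)
      exact ⟨b, by rw [hb]; rfl⟩
    -- every element of `B₁` is in the preimage
    let D : Subgroup B₁ := (Subgroup.toAddSubgroup.symm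
      (AddSubgroup.closure {a | ∃ α m r, a = ζ α m r})).comap (QuotientGroup.mk' C)
    have hD : ∀ b : B₁, b ∈ D ↔ Additive.ofMul (b : B₁ ⧸ C) ∈
      AddSubgroup.closure {a | ∃ α m r, a = ζ α m r} := fun b => Iff.rfl
    have hDtop : B₁ ≤ D.map B₁.subtype := by
      conv_lhs => rw [hgen]
      refine sup_le ?_ ?_
      · intro x hx
        refine ⟨⟨x, hle hx⟩, ?_, rfl⟩
        show _ ∈ D
        rw [hD]
        have : ((⟨x, hle hx⟩ : B₁) : B₁ ⧸ C) = 1 := (hone _).mpr hx
        rw [this]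
        exact zero_mem _
      · rw [Subgroup.closure_le]
        rintro _ ⟨α, m, r, hm, rfl⟩
        refine ⟨⟨z α m r, hz α m r hm⟩, ?_, rfl⟩
        show _ ∈ D
        rw [hD]
        refine AddSubgroup.subset_closure ⟨α, m - m₀, r, ?_⟩
        have e : m - m₀ + m₀ = m := by omega
        simp only [ζ, Z, e]
    obtain ⟨b', hb', hbb⟩ := hDtop hb
    have : b' = ⟨b, hb⟩ := Subtype.ext hbb
    rw [← this]
    exact hb'
  · rintro i x hx
    obtain ⟨b, hb, hbx⟩ := hx
    refine ⟨σ b, ?_, ?_⟩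
    · show σ b ∈ (f i).subgroupOf B₁
      rw [Subgroup.mem_subgroupOf, hσ]
      exact (hf i).conj_mem _ (Subgroup.mem_subgroupOf.mp hb) y
    · have : Additive.toMul x = (b : B₁ ⧸ C) := hbx.symm
      show ((σ b : B₁) : B₁ ⧸ C) = Tm (Additive.toMul x)
      rw [this, hTm]
  · intro i j hij
    show Subgroup.toAddSubgroup _ ≤ Subgroup.toAddSubgroup _
    rw [OrderIso.le_iff_le]
    exact Subgroup.map_mono (Subgroup.comap_mono (hmono hij))

end Pool.Agent.Helper24.WeakMax
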