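import Pool.Agent.Helper11.WeakMax.Amb

/-!
# MP_7a1b54_al (S02015), piece NN: the group generated by the concrete elements is not nilpotent
-/

set_option autoImplicit false

namespace Pool.Agent.Helper11.WeakMax

open DihedralGroup Win
open scoped commutatorElement

/-- `XX n U` depends only on the sites of `U` between `1` and `2^(n+1) - 1`. -/
theorem XX_congr (n : ℕ) : ∀ (U V : Set ℤ) (τ : Bool),
    (∀ i : ℤ, 1 ≤ i → i ≤ 2 ^ (n + 1) - 1 → (i ∈ U ↔ i ∈ V)) → XX n U τ = XX n V τ := by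
  induction n with
  | zero =>
    intro U V τ h
    have h1 := h 1 le_rfl (by norm_num)
    by_cases hU : (1 : ℤ) ∈ U
    · exact (if_pos hU).trans (if_pos (h1.1 hU)).symm
    · exact (if_neg hU).trans (if_neg (fun hV => hU (h1.2 hV))).symm
  | succ n ih =>
    intro U V τ h
    have hp : (1 : ℤ) ≤ 2 ^ (n + 1) := one_le_pow₀ (by norm_num)
    have e : (2 : ℤ) ^ (n + 1 + 1) = 2 ^ (n + 1) + 2 ^ (n + 1) := by ring
    have h1 : XX n U τ = XX n V τ := by
      apply ih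
      intro i hi1 hi2
      exact h i hi1 (by rw [e]; omega)
    have h2 : ((2 : ℤ) ^ (n + 1) ∈ U ∧ τ = false) ↔ ((2 : ℤ) ^ (n + 1) ∈ V ∧ τ = false) := by
      have := h (2 ^ (n + 1)) hp (by rw [e]; omega)
      rw [this]
    have h3 : XX n {i | i + 2 ^ (n + 1) ∈ U} τ = XX n {i | i + 2 ^ (n + 1) ∈ V} τ := by
      apply ih
      intro i hi1 hi2
      exact h (i + 2 ^ (n + 1)) (by omega) (by rw [e]; omega)
    show (seq n).comb n _ _ _ = (seq n).comb n _ _ _
    rw [h1, h2, h3]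

theorem XX_empty (n : ℕ) (τ : Bool) : XX n ∅ τ = 1 := by
  induction n with
  | zero => exact if_neg (Set.notMem_empty _)
  | succ n ih =>
    show (seq n).comb n (XX n ∅ τ) ((2 : ℤ) ^ (n + 1) ∈ (∅ : Set ℤ) ∧ τ = false)
      (XX n {i | i + 2 ^ (n + 1) ∈ (∅ : Set ℤ)} τ) = 1
    have h3 : {i : ℤ | i + 2 ^ (n + 1) ∈ (∅ : Set ℤ)} = ∅ := by
      ext i; simp
    rw [h3, ih]
    unfold Win.comb Win.xp
    rw [if_neg (fun h => Set.notMem_empty _ h.1)]
    have : (seq n).il n (1, 1) = 1 := map_one _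
    rw [this, mul_one, mul_one]

/-- No relevant site: the product is trivial. -/
theorem XX_trivial (n : ℕ) (U : Set ℤ) (τ : Bool)
    (h : ∀ i : ℤ, 1 ≤ i → i ≤ 2 ^ (n + 1) - 1 → i ∉ U) : XX n U τ = 1 := by
  rw [← XX_empty n τ]
  apply XX_congr
  intro i h1 h2
  constructor
  · intro h3; exact (h i h1 h2 h3).elim
  · intro h3; exact h3.elim

/-- The subgroup of the window group generated by the sites. -/
noncomputable def Gen (n : ℕ) : Subgroup (seq n).P :=
  Subgroup.closure {g | ∃ (i : ℤ) (τ : Bool), 1 ≤ i ∧ i ≤ 2 ^ (n + 1) - 1 ∧ g = XX n {i} τ}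

/-- Evaluation at window `n`, position `0`. -/
noncomputable def evh (n : ℕ) : Fn →* (seq n).P :=
  (Pi.evalMonoidHom (fun _ : ℤ => (seq n).P) 0).comp
    (Pi.evalMonoidHom (fun n : ℕ => ℤ → (seq n).P) n)

theorem evh_apply (n : ℕ) (f : Fn) : evh n f = f n 0 := rfl

theorem Gen_le (n : ℕ) : Gen n ≤ SF.map (evh n) := by
  unfold Gen
  rw [Subgroup.closure_le]
  rintro _ ⟨i, τ, h1, h2, rfl⟩
  refine ⟨xF n i τ, Subgroup.subset_closure ⟨n, i, τ, rfl⟩, ?_⟩
  rw [evh_apply]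
  show XX n (Ul n (i - 0)) τ = XX n {i} τ
  apply XX_congr
  intro l hl1 hl2
  constructor
  · rintro ⟨c, hc⟩
    rw [Set.mem_singleton_iff]
    have hp : (1 : ℤ) ≤ 2 ^ (n + 1) := one_le_pow₀ (by norm_num)
    have hc0 : c = 0 := by
      by_contra hne
      rcases lt_or_gt_of_ne hne with h | h
      · have : (2 : ℤ) ^ (n + 1) * c ≤ 2 ^ (n + 1) * (-1) :=
          mul_le_mul_of_nonneg_left (by omega) (by omega)
        omega
      · have : (2 : ℤ) ^ (n + 1) * 1 ≤ 2 ^ (n + 1) * c :=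
          mul_le_mul_of_nonneg_left (by omega) (by omega)
        omega
    rw [hc0] at hc
    omega
  · intro h
    rw [Set.mem_singleton_iff] at h
    rw [h]
    exact ⟨0, by ring⟩

theorem XX_left (n : ℕ) {i : ℤ} (τ : Bool) (_h1 : 1 ≤ i) (h2 : i ≤ 2 ^ (n + 1) - 1) :
    XX (n + 1) {i} τ = (seq n).il n (XX n {i} τ, 1) := by
  show (seq n).comb n (XX n {i} τ) ((2 : ℤ) ^ (n + 1) ∈ ({i} : Set ℤ) ∧ τ = false)
      (XX n {l | l + 2 ^ (n + 1) ∈ ({i} : Set ℤ)} τ) = _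
  have e3 : XX n {l | l + 2 ^ (n + 1) ∈ ({i} : Set ℤ)} τ = 1 := by
    apply XX_trivial
    intro l hl1 hl2 hl
    have hl' : l + 2 ^ (n + 1) = i := hl
    omega
  rw [e3]
  unfold Win.comb Win.xp
  rw [if_neg (fun h => by have := h.1; rw [Set.mem_singleton_iff] at this; omega)]
  have : (seq n).il n (1, 1) = 1 := map_one _
  rw [this, mul_one, mul_one]

theorem XX_right (n : ℕ) {i : ℤ} (τ : Bool) (h1 : 1 ≤ i) (_h2 : i ≤ 2 ^ (n + 1) - 1) :
    XX (n + 1) {i + 2 ^ (n + 1)} τ = (seq n).il n (1, XX n {i} τ) := by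
  show (seq n).comb n (XX n {i + 2 ^ (n + 1)} τ)
      ((2 : ℤ) ^ (n + 1) ∈ ({i + 2 ^ (n + 1)} : Set ℤ) ∧ τ = false)
      (XX n {l | l + 2 ^ (n + 1) ∈ ({i + 2 ^ (n + 1)} : Set ℤ)} τ) = _
  have e1 : XX n {i + 2 ^ (n + 1)} τ = 1 := by
    apply XX_trivial
    intro l hl1 hl2 hl
    rw [Set.mem_singleton_iff] at hl
    omega
  have e3 : {l : ℤ | l + 2 ^ (n + 1) ∈ ({i + 2 ^ (n + 1)} : Set ℤ)} = {i} := by
    ext l; simp
  rw [e1, e3]
  unfold Win.comb Win.xp
  rw [if_neg (fun h => by have := h.1; rw [Set.mem_singleton_iff] at this; omega)]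
  have : (seq n).il n (1, 1) = 1 := map_one _
  rw [this, one_mul, one_mul]

theorem XX_mid (n : ℕ) : XX (n + 1) {2 ^ (n + 1)} false = (seq n).xg n := by
  show (seq n).comb n (XX n {2 ^ (n + 1)} false)
      ((2 : ℤ) ^ (n + 1) ∈ ({2 ^ (n + 1)} : Set ℤ) ∧ false = false)
      (XX n {l | l + 2 ^ (n + 1) ∈ ({2 ^ (n + 1)} : Set ℤ)} false) = _
  have e1 : XX n {2 ^ (n + 1)} false = 1 := by
    apply XX_trivial
    intro l hl1 hl2 hl
    rw [Set.mem_singleton_iff] at hl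
    omega
  have e3 : XX n {l | l + 2 ^ (n + 1) ∈ ({2 ^ (n + 1)} : Set ℤ)} false = 1 := by
    apply XX_trivial
    intro l hl1 hl2 hl
    have hl' : l + 2 ^ (n + 1) = 2 ^ (n + 1) := hl
    omega
  rw [e1, e3]
  unfold Win.comb Win.xp
  rw [if_pos ⟨rfl, rfl⟩]
  have : (seq n).il n (1, 1) = 1 := map_one _
  rw [this, one_mul, mul_one]

theorem il_left_mem_Gen (n : ℕ) {u : (seq n).P} (hu : u ∈ Gen n) :
    (seq n).il n (u, 1) ∈ Gen (n + 1) := by
  let φ : (seq n).P →* (seq n).NP n := ((seq n).il n).comp (MonoidHom.inl _ _)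
  have h : Gen n ≤ (Gen (n + 1)).comap φ := by
    unfold Gen
    rw [Subgroup.closure_le]
    rintro _ ⟨i, τ, h1, h2, rfl⟩
    apply Subgroup.subset_closure
    have hp : (1 : ℤ) ≤ 2 ^ (n + 1) := one_le_pow₀ (by norm_num)
    have e : (2 : ℤ) ^ (n + 1 + 1) = 2 ^ (n + 1) + 2 ^ (n + 1) := by ring
    exact ⟨i, τ, h1, by rw [e]; omega, (XX_left n τ h1 h2).symm⟩
  exact h hu

theorem il_right_mem_Gen (n : ℕ) {u : (seq n).P} (hu : u ∈ Gen n) :
    (seq n).il n (1, u) ∈ Gen (n + 1) := by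
  let φ : (seq n).P →* (seq n).NP n := ((seq n).il n).comp (MonoidHom.inr _ _)
  have h : Gen n ≤ (Gen (n + 1)).comap φ := by
    unfold Gen
    rw [Subgroup.closure_le]
    rintro _ ⟨i, τ, h1, h2, rfl⟩
    apply Subgroup.subset_closure
    have hp : (1 : ℤ) ≤ 2 ^ (n + 1) := one_le_pow₀ (by norm_num)
    have e : (2 : ℤ) ^ (n + 1 + 1) = 2 ^ (n + 1) + 2 ^ (n + 1) := by ring
    exact ⟨i + 2 ^ (n + 1), τ, by omega, by rw [e]; omega, (XX_right n τ h1 h2).symm⟩
  exact h hu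

theorem xg_mem_Gen (n : ℕ) : (seq n).xg n ∈ Gen (n + 1) := by
  rw [← XX_mid n]
  have hp : (1 : ℤ) ≤ 2 ^ (n + 1) := one_le_pow₀ (by norm_num)
  have e : (2 : ℤ) ^ (n + 1 + 1) = 2 ^ (n + 1) + 2 ^ (n + 1) := by ring
  exact Subgroup.subset_closure ⟨2 ^ (n + 1), false, hp, by rw [e]; omega, rfl⟩

theorem yy_mem_Gen (n : ℕ) (hk : (seq n).k ∈ Gen n) (hk' : (seq n).k' ∈ Gen n) :
    (seq n).yy n ∈ Gen (n + 1) := by
  have hg : (seq n).gg n ∈ Gen (n + 1) := by
    have e : (seq n).gg n = (seq n).il n ((seq n).k⁻¹, 1) * (seq n).il n (1, (seq n).k'⁻¹) := by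
      rw [← map_mul]
      show (seq n).il n _ = _
      congr 1
      simp
    rw [e]
    exact (Gen (n + 1)).mul_mem (il_left_mem_Gen n ((Gen n).inv_mem hk))
      (il_right_mem_Gen n ((Gen n).inv_mem hk'))
  exact (Gen (n + 1)).mul_mem (xg_mem_Gen n) ((Gen (n + 1)).mul_mem
    ((Gen (n + 1)).mul_mem hg (xg_mem_Gen n)) ((Gen (n + 1)).inv_mem hg))

theorem k_mem_Gen (n : ℕ) : (seq n).k ∈ Gen n ∧ (seq n).k' ∈ Gen n := by
  induction n with
  | zero =>
    constructor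
    · apply Subgroup.subset_closure
      refine ⟨1, false, le_rfl, by norm_num, ?_⟩
      exact (if_pos (Set.mem_singleton (1 : ℤ))).symm
    · apply Subgroup.subset_closure
      refine ⟨1, true, le_rfl, by norm_num, ?_⟩
      exact (if_pos (Set.mem_singleton (1 : ℤ))).symm
  | succ n ih =>
    have h := yy_mem_Gen n ih.1 ih.2
    exact ⟨(Gen (n + 1)).pow_mem h 3, (Gen (n + 1)).pow_mem h 6⟩

theorem gam_mono {G : Type*} [Group G] {S T : Subgroup G} (h : S ≤ T) (n : ℕ) :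
    gam S n ≤ gam T n := by
  induction n with
  | zero => exact h
  | succ n ih => exact Subgroup.commutator_mono ih h

/-- Iterated commutators `[yy, xg, ..., xg]`. -/
noncomputable def zz (c : ℕ) : ℕ → (seq c).NP c
  | 0 => (seq c).yy c
  | i + 1 => ⁅zz c i, (seq c).xg c⁆

theorem zz_mem (c i : ℕ) : (zz c i : (seq (c + 1)).P) ∈ gam (Gen (c + 1)) i := by
  induction i with
  | zero => exact yy_mem_Gen c (k_mem_Gen c).1 (k_mem_Gen c).2
  | succ i ih => exact Subgroup.commutator_mem_commutator ih (xg_mem_Gen c)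

theorem zz_right (c i : ℕ) : (zz c i).right = 1 := by
  induction i with
  | zero => exact (seq c).yy_right c
  | succ i ih =>
    show (⁅zz c i, (seq c).xg c⁆).right = 1
    rw [commutatorElement_def]
    simp [ih, xg_right]

theorem zz_left (c i : ℕ) : (zz c i).left 1 = r ((2 : ZMod (2 ^ (c + 4))) ^ i) := by
  induction i with
  | zero =>
    rw [pow_zero]
    exact (seq c).yy_left_one c
  | succ i ih =>
    show (⁅zz c i, (seq c).xg c⁆).left 1 = _
    have hr := zz_right c i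
    rw [commutatorElement_def]
    have e1 : (zz c i)⁻¹.left 1 = (r ((2 : ZMod (2 ^ (c + 4))) ^ i) : Dih c)⁻¹ := by
      rw [RegularWreathProduct.inv_left, hr, ← ih]
      simp
    have e2 : ((seq c).xg c)⁻¹.left 1 = (sr 0 : Dih c)⁻¹ := by
      rw [RegularWreathProduct.inv_left]
      simp [xg_right, xg_left, xv_at_one]
    have e3 : ((seq c).xg c).left 1 = sr 0 := (seq c).xv_at_one c
    simp only [Win.mul_left', RegularWreathProduct.mul_right, RegularWreathProduct.inv_right, hr,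
      xg_right, inv_one, mul_one, e1, e2, e3, ih]
    simp only [DihedralGroup.inv_r, DihedralGroup.inv_sr, DihedralGroup.r_mul_sr,
      DihedralGroup.sr_mul_r, DihedralGroup.sr_mul_sr]
    congr 1
    ring

theorem zz_ne_one (c : ℕ) : zz c c ≠ 1 := by
  intro h
  have h1 := zz_left c c
  rw [h] at h1
  have h2 : (r ((2 : ZMod (2 ^ (c + 4))) ^ c) : Dih c) = r 0 := by
    rw [← h1]; rfl
  have h3 : ((2 : ZMod (2 ^ (c + 4))) ^ c) = 0 := DihedralGroup.r.inj h2
  have h4 : ((2 ^ c : ℕ) : ZMod (2 ^ (c + 4))) = 0 := by push_cast; exact h3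
  rw [ZMod.natCast_eq_zero_iff] at h4
  have h5 := Nat.le_of_dvd (by positivity) h4
  have h6 : 2 ^ c < 2 ^ (c + 4) := Nat.pow_lt_pow_right (by norm_num) (by omega)
  omega

/-- The group generated by the concrete elements is not nilpotent. -/
theorem SF_nonnilp (c : ℕ) : gam SF c ≠ ⊥ := by
  intro h
  have h1 := zz_mem c c
  have h2 := gam_mono (Gen_le (c + 1)) c h1
  rw [gam_map, h, Subgroup.map_bot, Subgroup.mem_bot] at h2
  exact zz_ne_one c h2

end Pool.Agent.Helper11.WeakMax
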